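import Pool.Agent.H560.SI.Stm

/-!
Task FIB: the fibres of the map `F ↦ s`, `s ^ 2 = (m F)'` (helper249, for helper560).
-/

set_option autoImplicit false

namespace Pool.Agent.H249.SI

open Polynomial
open Pool.Agent.H560.SI
open Pool.Agent.H985.Chow (Asm.G Asm.G_surj Asm.card_deg)
open Pool.Agent.H694.Typ (Mn mem_Mn)

variable {K : Type} [Field K] [CharP K 2]

theorem sq_inj' {x y : K[X]} (h : x ^ 2 = y ^ 2) : x = y := by
  have h1 : (x + y) ^ 2 = 0 := by
    rw [CharTwo.add_sq, h]
    exact CharTwo.add_self_eq_zero _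
  exact CharTwo.add_eq_zero.1 (pow_eq_zero_iff two_ne_zero |>.1 h1)

theorem deriv_sq (a : K[X]) : derivative (a ^ 2) = 0 := by
  have h2 : (2 : K[X]) = 0 := CharTwo.two_eq_zero
  rw [sq, derivative_mul]
  linear_combination (a * derivative a) * h2

theorem deriv_G (a b : K[X]) : derivative (a ^ 2 + X * b ^ 2) = b ^ 2 := by
  rw [derivative_add, derivative_mul, deriv_sq, deriv_sq, derivative_X]
  ring

variable [Fintype K]

theorem exists_dec (f : K[X]) : ∃ a b : K[X], f = a ^ 2 + X * b ^ 2 := by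
  obtain ⟨a, b, h⟩ := Pool.Agent.H985.Chow.Asm.G_surj f
  exact ⟨a, b, h.symm⟩

/-- the square root of the derivative -/
noncomputable def dq (f : K[X]) : K[X] := (exists_dec f).choose_spec.choose

theorem dq_dec (f : K[X]) : ∃ a : K[X], f = a ^ 2 + X * dq f ^ 2 :=
  ⟨(exists_dec f).choose, (exists_dec f).choose_spec.choose_spec⟩

theorem dq_sq (f : K[X]) : dq f ^ 2 = derivative f := by
  obtain ⟨a, ha⟩ := dq_dec f
  have h := deriv_G a (dq f)
  rw [← ha] at h
  exact h.symm

theorem dq_sub (f g : K[X]) : dq (f - g) = dq f - dq g := by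
  apply sq_inj'
  rw [CharTwo.sub_eq_add (dq f), CharTwo.add_sq, dq_sq, dq_sq, dq_sq, derivative_sub,
    CharTwo.sub_eq_add]

theorem ker_dq {m r : K[X]} {u L : ℕ} (hm : m.Monic) (hi : Irreducible m) (hu : m.natDegree = u)
    (hr : r.degree < ((u + 2 * L : ℕ) : WithBot ℕ)) (h : dq (m * r) = 0) :
    ∃ t : K[X], t.degree < (L : WithBot ℕ) ∧ r = m * t ^ 2 := by
  obtain ⟨a, ha⟩ := dq_dec (m * r)
  rw [h, zero_pow two_ne_zero, mul_zero, add_zero] at ha
  have h1 : m ∣ a := hi.prime.dvd_of_dvd_pow (⟨r, ha.symm⟩ : m ∣ a ^ 2)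
  obtain ⟨v, rfl⟩ := h1
  have h2 : r = m * v ^ 2 := by
    apply mul_left_cancel₀ hm.ne_zero
    rw [ha]
    ring
  refine ⟨v, ?_, h2⟩
  by_cases hv : v = 0
  · rw [hv, degree_zero]
    exact WithBot.bot_lt_coe _
  · have h3 : r.degree = ((u + 2 * v.natDegree : ℕ) : WithBot ℕ) := by
      rw [h2, degree_mul, degree_pow, degree_eq_natDegree hm.ne_zero, degree_eq_natDegree hv, hu]
      push_cast
      ring
    rw [h3] at hr
    have h4 : u + 2 * v.natDegree < u + 2 * L := by exact_mod_cast hr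
    rw [degree_eq_natDegree hv]
    exact_mod_cast (by omega : v.natDegree < L)

theorem dq_deg {m r : K[X]} {u L : ℕ} (hu : m.natDegree = u) (hu1 : 1 ≤ u)
    (hr : r.degree < ((u + 2 * L : ℕ) : WithBot ℕ)) :
    (dq (m * r)).degree < ((u + L : ℕ) : WithBot ℕ) := by
  by_cases h0 : dq (m * r) = 0
  · rw [h0, degree_zero]
    exact WithBot.bot_lt_coe _
  · have hr0 : r ≠ 0 := by
      rintro rfl
      apply h0
      have h1 := dq_sq (m * (0 : K[X]))
      rw [mul_zero, derivative_zero] at h1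
      rw [mul_zero]
      exact pow_eq_zero_iff two_ne_zero |>.1 h1
    have h1 : (dq (m * r) ^ 2).natDegree ≤ (m * r).natDegree - 1 := by
      rw [dq_sq]
      exact natDegree_derivative_le _
    rw [natDegree_pow] at h1
    have h2 : (m * r).natDegree ≤ u + r.natDegree := by
      rw [← hu]
      exact natDegree_mul_le
    rw [degree_eq_natDegree hr0] at hr
    have h3 : r.natDegree < u + 2 * L := by exact_mod_cast hr
    rw [degree_eq_natDegree h0]
    exact_mod_cast (by omega : (dq (m * r)).natDegree < u + L)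

open scoped Classical in
theorem surj {m : K[X]} {u L : ℕ} (hm : m.Monic) (hi : Irreducible m) (hu : m.natDegree = u)
    (hu1 : 1 ≤ u) (w : K[X]) (hw : w.degree < ((u + L : ℕ) : WithBot ℕ)) :
    ∃ r : K[X], r.degree < ((u + 2 * L : ℕ) : WithBot ℕ) ∧ dq (m * r) = w := by
  let φ : degreeLT K (u + 2 * L) → degreeLT K (u + L) := fun r =>
    ⟨dq (m * r.1), mem_degreeLT.2 (dq_deg hu hu1 (mem_degreeLT.1 r.2))⟩
  have hfib : ∀ c ∈ (Finset.univ : Finset (degreeLT K (u + 2 * L))).image φ,
      ((Finset.univ : Finset (degreeLT K (u + 2 * L))).filter (fun x => φ x = c)).card ≤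
        Fintype.card K ^ L := by
    intro c hc
    obtain ⟨r0, -, hr0⟩ := Finset.mem_image.1 hc
    have hex : ∀ r : degreeLT K (u + 2 * L), ∃ t : degreeLT K L, φ r = c →
        r.1 - r0.1 = m * t.1 ^ 2 := by
      intro r
      by_cases hr : φ r = c
      · have h1 : φ r = φ r0 := hr.trans hr0.symm
        have h2 : dq (m * r.1) = dq (m * r0.1) := congrArg Subtype.val h1
        have h3 : dq (m * (r.1 - r0.1)) = 0 := by
          rw [mul_sub, dq_sub, h2, sub_self]
        have h4 : (r.1 - r0.1).degree < ((u + 2 * L : ℕ) : WithBot ℕ) :=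
          mem_degreeLT.1 (Submodule.sub_mem _ r.2 r0.2)
        obtain ⟨t, ht, h5⟩ := ker_dq hm hi hu h4 h3
        exact ⟨⟨t, mem_degreeLT.2 ht⟩, fun _ => h5⟩
      · exact ⟨0, fun h => absurd h hr⟩
    choose t ht using hex
    rw [← Pool.Agent.H985.Chow.Asm.card_deg (K := K) L, ← Finset.card_univ]
    refine Finset.card_le_card_of_injOn t (fun _ _ => Finset.mem_univ _) ?_
    intro r hr r' hr' he
    rw [Finset.mem_coe, Finset.mem_filter] at hr hr'
    have h1 := ht r hr.2
    have h2 := ht r' hr'.2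
    rw [he, ← h2] at h1
    exact Subtype.ext (sub_left_injective h1)
  have h1 := Finset.card_le_mul_card_image (f := φ) Finset.univ (Fintype.card K ^ L) hfib
  rw [Finset.card_univ, Pool.Agent.H985.Chow.Asm.card_deg] at h1
  have hq : 0 < Fintype.card K := Fintype.card_pos
  have h2 : Fintype.card (degreeLT K (u + L)) ≤
      ((Finset.univ : Finset (degreeLT K (u + 2 * L))).image φ).card := by
    rw [Pool.Agent.H985.Chow.Asm.card_deg]
    have h3 : Fintype.card K ^ (u + 2 * L) = Fintype.card K ^ L * Fintype.card K ^ (u + L) := by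
      rw [← pow_add]
      congr 1
      omega
    rw [h3] at h1
    exact Nat.le_of_mul_le_mul_left h1 (pow_pos hq L)
  have h3 : (Finset.univ : Finset (degreeLT K (u + 2 * L))).image φ = Finset.univ :=
    Finset.eq_univ_of_card _ (le_antisymm (Finset.card_le_univ _) h2)
  have h4 : (⟨w, mem_degreeLT.2 hw⟩ : degreeLT K (u + L)) ∈
      (Finset.univ : Finset (degreeLT K (u + 2 * L))).image φ := by
    rw [h3]
    exact Finset.mem_univ _
  obtain ⟨r, -, hr⟩ := Finset.mem_image.1 h4
  exact ⟨r.1, mem_degreeLT.1 r.2, congrArg Subtype.val hr⟩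

theorem dq_monic {f : K[X]} {N : ℕ} (hf : f.Monic) (hd : f.natDegree = 2 * N + 1) :
    (dq f).Monic ∧ (dq f).natDegree = N := by
  have h1 := dq_sq f
  have h2 : (derivative f).coeff (2 * N) = 1 := by
    rw [coeff_derivative]
    have h3 : f.coeff (2 * N + 1) = 1 := by
      rw [← hd]
      exact hf.coeff_natDegree
    rw [h3]
    have h4 : (2 : K) = 0 := CharTwo.two_eq_zero
    push_cast
    linear_combination (N : K) * h4
  have h3 : (derivative f).natDegree ≤ 2 * N := by
    have := natDegree_derivative_le f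
    omega
  have h4 : (derivative f).natDegree = 2 * N :=
    le_antisymm h3 (le_natDegree_of_ne_zero (by rw [h2]; exact one_ne_zero))
  have h5 : (dq f).natDegree = N := by
    rw [← h1, natDegree_pow] at h4
    omega
  refine ⟨?_, h5⟩
  have h6 : (dq f ^ 2).leadingCoeff = 1 := by
    rw [leadingCoeff, h1, h4, h2]
  rw [leadingCoeff_pow] at h6
  have h7 : ((dq f).leadingCoeff + 1) ^ 2 = 0 := by
    rw [CharTwo.add_sq, h6, one_pow]
    exact CharTwo.add_self_eq_zero _
  exact CharTwo.add_eq_zero.1 (pow_eq_zero_iff two_ne_zero |>.1 h7)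

theorem fib : S_fib := by
  intro K _ _ _ n u L N m g hN hu1 hL hn hm hi hu hg hgd
  have hmg : (m * g).Monic := hm.mul hg
  have hmgd : (m * g).natDegree = 2 * N + 1 := by
    rw [hm.natDegree_mul hg, hu, hgd]
    omega
  obtain ⟨hS, hSd⟩ := dq_monic hmg hmgd
  refine ⟨dq (m * g), hS, hSd, ?_⟩
  intro s hs
  obtain ⟨r, hr, hrw⟩ := surj hm hi hu hu1 _ hs
  have hrn : r.degree < g.degree := by
    rw [degree_eq_natDegree hg.ne_zero, hgd]
    exact lt_of_lt_of_le hr (by exact_mod_cast hn)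
  refine ⟨g + r, ?_, ?_⟩
  · unfold Itv
    rw [Finset.mem_filter, mem_Mn]
    refine ⟨⟨hg.add_of_left hrn, ?_⟩, ?_⟩
    · rw [natDegree_add_eq_left_of_degree_lt hrn, hgd]
    · rw [add_sub_cancel_left]
      exact hr
  · rw [mul_add, derivative_add, ← dq_sq, ← dq_sq, hrw, ← CharTwo.add_sq]
    rw [add_sub_cancel]

end Pool.Agent.H249.SI
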